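import Pool.Agent.PostTag.OneAuto

/-!
Post's tag system `0 -> 00`, `1 -> 1101` with shift number 3. Inputs obtained from fixed words by
inserting runs of zeros: no infinite `k`-automatic family of such inputs consists of non-halting
ones, for any `k ≥ 2` prime to 3.
-/

set_option autoImplicit false

namespace Pool.Agent.Results.MP_cc4033_lc.AutomaticImmune

/-- One step of Post's tag system: delete three symbols, append `1101` or `00`. -/
def step (w : List Bool) : List Bool :=
  w.drop 3 ++ (if w.headI then [true, true, false, true] else [false, false])

/-- The computation on `w` reaches a word of length less than three. -/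
def Halts (w : List Bool) : Prop := ∃ k : ℕ, (step^[k] w).length < 3

/-- The word `U_0 0^{x_0} U_1 0^{x_1} U_2 ... 0^{x_{m-1}} U_m`. -/
def word {m : ℕ} (U : Fin (m + 1) → List Bool) (x : Fin m → ℕ) : List Bool :=
  U 0 ++ (List.ofFn fun i : Fin m => List.replicate (x i) false ++ U i.succ).flatten

/-- The vector of natural numbers with the base `k` digits `w` (each letter of `w` is the vector of
the digits at one position, most significant position first, leading zeros allowed). -/
def value {k m : ℕ} (w : List (Fin m → Fin k)) : Fin m → ℕ :=
  w.foldl (fun v d i => k * v i + (d i : ℕ)) 0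

/-- The set `S` of vectors is `k`-automatic: the digit words of its elements form a regular
language. -/
def IsAutomatic (k m : ℕ) (S : Set (Fin m → ℕ)) : Prop :=
  Language.IsRegular ({w : List (Fin m → Fin k) | value w ∈ S} : Language (Fin m → Fin k))

/-- For all fixed words `U_0, ..., U_m` and all `k ≥ 2` prime to 3, every `k`-automatic set of
vectors `x` for which the input `U_0 0^{x_0} U_1 ... 0^{x_{m-1}} U_m` does not halt is finite. -/
theorem result (m : ℕ) (U : Fin (m + 1) → List Bool) (k : ℕ) (hk : 2 ≤ k) (h3 : Nat.Coprime k 3)
    (S : Set (Fin m → ℕ)) (hS : IsAutomatic k m S) (h : ∀ x ∈ S, ¬ Halts (word U x)) : S.Finite :=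
  Pool.Agent.PostTag.automatic_in m U k hk h3 S hS h

end Pool.Agent.Results.MP_cc4033_lc.AutomaticImmune
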