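import Pool.Agent.PostTag.Rate

/-!
Post's tag system `0 -> 00`, `1 -> 1101` with shift number 3: generic halting for inputs with a
bounded number of ones, with an explicit rate that is uniform in the input words.
-/

set_option autoImplicit false

namespace Pool.Agent.Results.MP_cc4033_lc.GenericHalting

/-- There is an absolute constant `C` such that for all binary words `u`, `v` and all `n ≥ 16`, the
number of `i < n` for which the computation of Post's tag system on `u 0^i v` does not halt is at
most `C (|u|_1 + |v|_1) n / log log n`. -/
theorem result : ∃ C : ℝ, ∀ u v : List Bool, ∀ n : ℕ, 16 ≤ n →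
    (Set.ncard {i : ℕ | i < n ∧ ¬ ∃ k : ℕ, ((fun w : List Bool =>
        w.drop 3 ++ (if w.headI then [true, true, false, true] else [false, false]))^[k]
          (u ++ List.replicate i false ++ v)).length < 3} : ℝ)
      ≤ C * ((u.count true : ℝ) + v.count true) * n / Real.log (Real.log n) := by
  classical
  obtain ⟨C, hC⟩ := Pool.Agent.PostTag.density_bound
  refine ⟨C, fun u v n hn => ?_⟩
  have h := hC u v n hn
  have e : {i : ℕ | i < n ∧ ¬ ∃ k : ℕ, ((fun w : List Bool =>
        w.drop 3 ++ (if w.headI then [true, true, false, true] else [false, false]))^[k]
          (u ++ List.replicate i false ++ v)).length < 3}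
      = (((Finset.range n).filter (fun i => ¬ Pool.Agent.PostTag.Halts
          (u ++ List.replicate i false ++ v)) : Finset ℕ) : Set ℕ) := by
    ext i
    simp only [Set.mem_setOf_eq, Finset.coe_filter, Finset.mem_range]
    rfl
  rw [e, Set.ncard_coe_finset]
  convert h using 3

end Pool.Agent.Results.MP_cc4033_lc.GenericHalting
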