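import Pool.Agent.PostTag.Table

/-!
Post's tag system `0 -> 00`, `1 -> 1101` with shift number 3: for all large `n`, at least `n^(1/3)`
of the inputs `1 0^i` with `i < n` do not halt.
-/

set_option autoImplicit false

namespace Pool.Agent.Results.MP_cc4033_lc.PowerMany

/-- One step of Post's tag system: delete three symbols, append `1101` or `00`. -/
def step (w : List Bool) : List Bool :=
  w.drop 3 ++ (if w.headI then [true, true, false, true] else [false, false])

/-- The computation on `w` reaches a word of length less than three. -/
def Halts (w : List Bool) : Prop := ∃ k : ℕ, (step^[k] w).length < 3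

/-- For all large `n`, at least `n^(1/3)` of the inputs `1 0^i`, `i < n`, do not halt. -/
theorem result : ∃ n₀ : ℕ, ∀ n : ℕ, n₀ ≤ n →
    n ≤ ({i : ℕ | i < n ∧ ¬ Halts (true :: List.replicate i false)}.ncard) ^ 3 :=
  Pool.Agent.PostTag.power_many Pool.Agent.PostTag.fan (by norm_num) (by norm_num)

end Pool.Agent.Results.MP_cc4033_lc.PowerMany
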