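import Pool.Agent.PR33.Final

/-!
Post's tag system `0 -> 00`, `1 -> 1101` with shift number 3: no finite automaton separates the inputs on which it halts from the inputs
on which it ends in a cycle of a given length, or two cycle lengths from each other, not even on the inputs with a given beginning and a
given end.
-/

set_option autoImplicit false

namespace Pool.Agent.Results.MP_cc4033_lc.RegularInseparable

/-- `S` is one step of Post's tag system (delete the first three symbols, append `1101` or `00` according to the first symbol). For every
homomorphism `f` from the binary words to a finite monoid `M` and all binary words `u`, `v` there is one element `g` of `M` such that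
each of the following behaviours of the computation on `u w v` occurs for arbitrarily long words `w` with `f w = g`: the computation
reaches a word of length less than three (it halts); for each `p` that is `6`, `10` or even and at least `14`, the computation never
reaches a word of length less than three and is eventually periodic with least period exactly `p`. -/
theorem result : ∀ S : List Bool → List Bool,
    (∀ x, S x = x.drop 3 ++ (if x.headI then [true, true, false, true] else [false, false])) →
    ∀ (M : Type) [Monoid M] [Finite M] (f : List Bool → M), f [] = 1 → (∀ x y, f (x ++ y) = f x * f y) →
    ∀ u v : List Bool, ∃ g : M,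
      (∀ L : ℕ, ∃ w : List Bool, f w = g ∧ L ≤ w.length ∧ ∃ k : ℕ, (S^[k] (u ++ w ++ v)).length < 3) ∧
      ∀ L p : ℕ, (p = 6 ∨ p = 10 ∨ (14 ≤ p ∧ Even p)) →
        ∃ w : List Bool, f w = g ∧ L ≤ w.length ∧ (∀ j : ℕ, 3 ≤ (S^[j] (u ++ w ++ v)).length) ∧
          ∃ k : ℕ, Function.minimalPeriod S (S^[k] (u ++ w ++ v)) = p := by
  intro S hS M _ _ f h1 hf u v
  have e : S = Pool.Agent.PostTag.step := by
    funext x
    exact hS x
  rw [e]
  exact Pool.Agent.PR33.main f h1 hf u v

end Pool.Agent.Results.MP_cc4033_lc.RegularInseparable
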